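import Pool.Agent.S04202

/-!
# Common hypercyclic vectors fail in almost every direction

Beside the frozen statement S04202: the group is `T z = exp (z A)` on the Hilbert space `ℓ²`, every
`T z`, `z ≠ 0`, has a residual set of hypercyclic vectors, and for EVERY vector `y` and almost every
direction `θ` not even the orbit of `y` under the one-parameter semigroup `T (t exp (i θ))`,
`t ≥ 0`, is dense.
-/

set_option autoImplicit false
open Filter Topology

namespace Pool.Agent.Results.MP_2d5ed4_an.NoCommonRay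

open Pool.Agent.S04202

/-- Birkhoff's argument: the hypercyclic vectors of `T a`, `a ≠ 0`, form a residual set. -/
lemma residual_hypercyclic (a : ℂ) (ha : a ≠ 0) :
    {y : HS | Dense (Set.range (fun n : ℕ => (⇑(T a))^[n] y))} ∈ residual HS := by
  set B := TopologicalSpace.countableBasis HS with hB
  have hBc : B.Countable := TopologicalSpace.countable_countableBasis HS
  have hopen : ∀ V ∈ B, IsOpen (⋃ n : ℕ, (T (n * a)) ⁻¹' V) := by
    intro V hV
    refine isOpen_iUnion fun n => ?_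
    exact (TopologicalSpace.isOpen_of_mem_countableBasis hV).preimage (T (n * a)).continuous
  have hdense : ∀ V ∈ B, Dense (⋃ n : ℕ, (T (n * a)) ⁻¹' V) := by
    intro V hV
    rw [dense_iff_inter_open]
    intro U hU hUn
    obtain ⟨n, x, hx, hxV⟩ := transitive a ha U V hU
      (TopologicalSpace.isOpen_of_mem_countableBasis hV) hUn
      (TopologicalSpace.nonempty_of_mem_countableBasis hV)
    exact ⟨x, hx, Set.mem_iUnion.mpr ⟨n, hxV⟩⟩
  have hres : (⋂ V ∈ B, ⋃ n : ℕ, (T (n * a)) ⁻¹' V) ∈ residual HS := by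
    rw [countable_bInter_mem hBc]
    intro V hV
    exact residual_of_dense_open (hopen V hV) (hdense V hV)
  refine mem_of_superset hres ?_
  intro y hy
  rw [Set.mem_ofPred_eq, (TopologicalSpace.isBasis_countableBasis HS).dense_iff]
  intro V hV _
  have := Set.mem_iInter₂.mp hy V hV
  obtain ⟨n, hn⟩ := Set.mem_iUnion.mp this
  refine ⟨T (n * a) y, hn, n, ?_⟩
  exact T_iterate a n y

/-- The direction `exp (i θ)`. -/
noncomputable def dir (θ : ℝ) : ℂ := Complex.exp (θ * Complex.I)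

lemma norm_dir (θ : ℝ) : ‖dir θ‖ = 1 := by
  unfold dir
  exact Complex.norm_exp_ofReal_mul_I θ

/-- Chord and angle. -/
lemma angle_le (θ φ : ℝ) (h : |θ - φ| ≤ 1) : |θ - φ| ≤ 2 * ‖dir θ - dir φ‖ := by
  have hm : dir θ - dir φ = dir φ * (dir (θ - φ) - 1) := by
    unfold dir
    rw [mul_sub, ← Complex.exp_add, mul_one]
    congr 2
    push_cast
    ring
  have hn : ‖dir θ - dir φ‖ = ‖dir (θ - φ) - 1‖ := by
    rw [hm, norm_mul, norm_dir, one_mul]
  rw [hn]
  set x := θ - φ with hx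
  have him : (dir x - 1).im = Real.sin x := by
    unfold dir
    rw [Complex.sub_im, Complex.exp_ofReal_mul_I_im, Complex.one_im, sub_zero]
  have h1 : |Real.sin x| ≤ ‖dir x - 1‖ := by
    rw [← him]
    exact Complex.abs_im_le_norm _
  have h2 : |x| ≤ 2 * |Real.sin x| := by
    have h3 : 2 / Real.pi * |x| ≤ Real.sin |x| := by
      apply Real.mul_le_sin (abs_nonneg x)
      have := Real.pi_gt_three
      linarith
    have h4 : Real.sin |x| ≤ |Real.sin x| := by
      rcases abs_cases x with ⟨e, _⟩ | ⟨e, _⟩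
      · rw [e]; exact le_abs_self _
      · rw [e, Real.sin_neg]; exact neg_le_abs _
    have h5 : (1 : ℝ) / 2 ≤ 2 / Real.pi := by
      rw [div_le_div_iff₀ (by norm_num) Real.pi_pos]
      have := Real.pi_le_four
      linarith
    have h6 : 1 / 2 * |x| ≤ 2 / Real.pi * |x| := mul_le_mul_of_nonneg_right h5 (abs_nonneg x)
    linarith
  linarith

/-- Directions `θ ∈ [c, c + 1]` whose ray comes within `1` of `a` at a time `t ≥ 2 ^ k`. -/
def R' (c : ℝ) (k : ℕ) (a : ℂ) : Set ℝ :=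
  {θ | θ ∈ Set.Icc c (c + 1) ∧ ∃ t : ℝ, 2 ^ k ≤ t ∧ ‖a - (t : ℂ) * dir θ‖ ≤ 1}

lemma R'_dist (c : ℝ) (k : ℕ) (a : ℂ) (θ φ : ℝ) (hθ : θ ∈ R' c k a) (hφ : φ ∈ R' c k a) :
    |θ - φ| ≤ 8 / 2 ^ k := by
  obtain ⟨hθ1, t, ht, hta⟩ := hθ
  obtain ⟨hφ1, s, hs, hsa⟩ := hφ
  have hkpos : (0 : ℝ) < 2 ^ k := by positivity
  have htpos : 0 < t := lt_of_lt_of_le hkpos ht
  have hspos : 0 < s := lt_of_lt_of_le hkpos hs
  have hd : ‖(t : ℂ) * dir θ - (s : ℂ) * dir φ‖ ≤ 2 := by
    have h1 : (t : ℂ) * dir θ - (s : ℂ) * dir φ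
        = (a - (s : ℂ) * dir φ) - (a - (t : ℂ) * dir θ) := by ring
    rw [h1]
    refine (norm_sub_le _ _).trans ?_
    linarith
  have hts : |t - s| ≤ 2 := by
    have h1 := abs_norm_sub_norm_le ((t : ℂ) * dir θ) ((s : ℂ) * dir φ)
    rw [norm_mul, norm_mul, norm_dir, norm_dir, mul_one, mul_one, Complex.norm_real,
      Complex.norm_real, Real.norm_of_nonneg htpos.le, Real.norm_of_nonneg hspos.le] at h1
    exact h1.trans hd
  have h2 : (t : ℂ) * (dir θ - dir φ)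
      = ((t : ℂ) * dir θ - (s : ℂ) * dir φ) - ((t - s : ℝ) : ℂ) * dir φ := by
    push_cast
    ring
  have h3 : t * ‖dir θ - dir φ‖ ≤ 4 := by
    have h4 : ‖(t : ℂ) * (dir θ - dir φ)‖ ≤ 4 := by
      rw [h2]
      refine (norm_sub_le _ _).trans ?_
      rw [norm_mul ((t - s : ℝ) : ℂ), norm_dir, mul_one, Complex.norm_real, Real.norm_eq_abs]
      linarith
    rwa [norm_mul, Complex.norm_real, Real.norm_of_nonneg htpos.le] at h4
  have h5 : 2 ^ k * ‖dir θ - dir φ‖ ≤ 4 :=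
    (mul_le_mul_of_nonneg_right ht (norm_nonneg _)).trans h3
  have h6 : |θ - φ| ≤ 1 := by
    rw [abs_le]
    constructor <;> linarith [hθ1.1, hθ1.2, hφ1.1, hφ1.2]
  have h7 := angle_le θ φ h6
  rw [le_div_iff₀ hkpos]
  calc |θ - φ| * 2 ^ k ≤ 2 * ‖dir θ - dir φ‖ * 2 ^ k := by gcongr
    _ = 2 * (2 ^ k * ‖dir θ - dir φ‖) := by ring
    _ ≤ 8 := by linarith

lemma volume_R'_le (c : ℝ) (k : ℕ) (a : ℂ) :
    MeasureTheory.volume (R' c k a) ≤ ENNReal.ofReal (8 / 2 ^ k) := by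
  refine (Real.volume_le_diam _).trans ?_
  apply Metric.ediam_le
  intro s hs t ht
  rw [edist_dist, Real.dist_eq]
  exact ENNReal.ofReal_le_ofReal (R'_dist c k a s t hs ht)

/-- Directions whose ray comes near `E 1` at a time `t ∈ [2^k, 2^(k+1))`. -/
def S' (y : HS) (c : ℝ) (k : ℕ) : Set ℝ :=
  {θ | θ ∈ Set.Icc c (c + 1) ∧ ∃ t : ℝ, 2 ^ k ≤ t ∧ t < 2 ^ (k + 1) ∧
    ‖T ((t : ℂ) * dir θ) y - E 1‖ < 1 / 40}

lemma volume_S'_le (y : HS) (c : ℝ) (k : ℕ) (hk : ‖y‖ * (1 / 2 : ℝ) ^ (k + 4) ≤ 1 / 10) :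
    MeasureTheory.volume (S' y c k) ≤ ENNReal.ofReal ((k + 4) * (8 / 2 ^ k)) := by
  classical
  have hsub : S' y c k ⊆ ⋃ a ∈ (P y (k + 3)).roots.toFinset, R' c k a := by
    rintro θ ⟨hθ, t, ht1, ht2, hclose⟩
    have h0 : (0 : ℝ) < 2 ^ k := by positivity
    have htpos : 0 < t := lt_of_lt_of_le h0 ht1
    have hnorm : ‖(t : ℂ) * dir θ‖ + 1 ≤ 2 ^ (k + 3) := by
      rw [norm_mul, norm_dir, mul_one, Complex.norm_real, Real.norm_of_nonneg htpos.le]
      have h2 : (1 : ℝ) ≤ 2 ^ (k + 1) := one_le_pow₀ (by norm_num)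
      have h3 : (2 : ℝ) ^ (k + 3) = 4 * 2 ^ (k + 1) := by
        rw [pow_add 2 k 1, pow_add 2 k 3]; ring
      rw [h3]
      linarith
    obtain ⟨a, ha, hau⟩ := exists_root_of_close y (k + 3) _ hnorm hk hclose
    simp only [Set.mem_iUnion]
    exact ⟨a, Multiset.mem_toFinset.mpr ha, hθ, t, ht1, hau⟩
  refine (MeasureTheory.measure_mono hsub).trans ?_
  refine (MeasureTheory.measure_biUnion_finset_le _ _).trans ?_
  refine (Finset.sum_le_sum fun a _ => volume_R'_le c k a).trans ?_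
  rw [Finset.sum_const, nsmul_eq_mul]
  have hcard : ((P y (k + 3)).roots.toFinset.card : ℝ) ≤ (k : ℝ) + 4 := by
    have h1 : (P y (k + 3)).roots.toFinset.card ≤ k + 4 :=
      (Multiset.toFinset_card_le _).trans ((Polynomial.card_roots' _).trans (P_natDegree y (k + 3)))
    exact_mod_cast h1
  have h2 : (((P y (k + 3)).roots.toFinset.card : ℕ) : ENNReal)
      = ENNReal.ofReal ((P y (k + 3)).roots.toFinset.card : ℝ) := by
    rw [ENNReal.ofReal_natCast]
  rw [h2, ← ENNReal.ofReal_mul (by positivity)]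
  apply ENNReal.ofReal_le_ofReal
  gcongr

/-- The ray of `y` in direction `θ`. -/
def ray (θ : ℝ) (y : HS) : Set HS :=
  {v | ∃ t : ℝ, 0 ≤ t ∧ v = T ((t : ℂ) * Complex.exp (θ * Complex.I)) y}

/-- A dense ray comes near `E 1` at arbitrarily large times. -/
lemma frequently_close' (y : HS) (θ : ℝ) (hy : Dense (ray θ y)) (M : ℝ) (_hM : 0 ≤ M) :
    ∃ t : ℝ, M ≤ t ∧ ‖T ((t : ℂ) * dir θ) y - E 1‖ < 1 / 40 := by
  have hsurj : Function.Surjective (T ((M : ℂ) * dir θ)) := by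
    intro v
    refine ⟨T (-((M : ℂ) * dir θ)) v, ?_⟩
    rw [← T_add_apply, add_neg_cancel, T_zero]
    rfl
  have hd : Dense ((T ((M : ℂ) * dir θ)) '' ray θ y) :=
    hsurj.denseRange.dense_image (T ((M : ℂ) * dir θ)).continuous hy
  obtain ⟨x, hx1, hx2⟩ := hd.exists_dist_lt (E 1) (show (0 : ℝ) < 1 / 40 by norm_num)
  obtain ⟨v, ⟨t, ht, rfl⟩, rfl⟩ := hx1
  refine ⟨M + t, by linarith, ?_⟩
  rw [dist_comm, dist_eq_norm, ← T_add_apply] at hx2
  have e : (((M + t : ℝ) : ℂ)) * dir θ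
      = (M : ℂ) * dir θ + (t : ℂ) * Complex.exp (θ * Complex.I) := by
    unfold dir
    push_cast
    ring
  rw [e]
  exact hx2

lemma null_Icc (y : HS) (c : ℝ) :
    MeasureTheory.volume {θ : ℝ | θ ∈ Set.Icc c (c + 1) ∧ Dense (ray θ y)} = 0 := by
  have hlim : Tendsto (fun k : ℕ => ‖y‖ * (1 / 2 : ℝ) ^ (k + 4)) atTop (𝓝 (‖y‖ * 0)) := by
    apply Tendsto.const_mul
    exact (tendsto_pow_atTop_nhds_zero_of_lt_one (by norm_num) (by norm_num)).comp
      (tendsto_add_atTop_nat 4)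
  rw [mul_zero] at hlim
  obtain ⟨k₀, hk₀⟩ := (hlim.eventually (eventually_le_nhds (show (0 : ℝ) < 1 / 10 by norm_num))
    ).exists_forall_of_atTop
  have hsum : ∑' k : ℕ, MeasureTheory.volume (S' y c (k + k₀)) ≠ ⊤ := by
    have hle : ∀ k : ℕ, MeasureTheory.volume (S' y c (k + k₀))
        ≤ ENNReal.ofReal ((((k + k₀ : ℕ) : ℝ) + 4) * (8 / 2 ^ (k + k₀))) := by
      intro k
      exact volume_S'_le y c (k + k₀) (hk₀ (k + k₀) (by omega))
    have hsm : Summable (fun k : ℕ => ((k : ℝ) + 4) * (8 / 2 ^ k)) := by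
      have h1 : Summable (fun k : ℕ => (k : ℝ) ^ 1 * (1 / 2 : ℝ) ^ k) :=
        summable_pow_mul_geometric_of_norm_lt_one 1 (by norm_num)
      have h2 : Summable (fun k : ℕ => (1 / 2 : ℝ) ^ k) := summable_geometric_two
      have h3 := (h1.mul_left 8).add (h2.mul_left 32)
      refine h3.congr fun k => ?_
      rw [one_div, inv_pow]
      field_simp
      ring
    have hsm2 : Summable (fun k : ℕ => (((k + k₀ : ℕ) : ℝ) + 4) * (8 / 2 ^ (k + k₀))) :=
      (summable_nat_add_iff (f := fun k : ℕ => ((k : ℝ) + 4) * (8 / 2 ^ k)) k₀).mpr hsm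
    refine ne_top_of_le_ne_top ?_ (ENNReal.tsum_le_tsum hle)
    rw [← ENNReal.ofReal_tsum_of_nonneg (fun k => by positivity) hsm2]
    exact ENNReal.ofReal_ne_top
  have hzero := MeasureTheory.measure_limsup_atTop_eq_zero hsum
  refine MeasureTheory.measure_mono_null ?_ hzero
  rintro θ ⟨hθ, hd⟩
  rw [Filter.mem_limsup_iff_frequently_mem, Filter.frequently_atTop]
  intro M
  obtain ⟨t, ht, hclose⟩ := frequently_close' y θ hd (2 ^ (M + k₀)) (by positivity)
  have ht1 : (1 : ℝ) ≤ t := le_trans (one_le_pow₀ (by norm_num)) ht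
  obtain ⟨m, hm1, hm2⟩ := exists_nat_pow_near ht1 (show (1 : ℝ) < 2 by norm_num)
  have hm3 : M + k₀ ≤ m := by
    by_contra hcon
    push Not at hcon
    have h1 : (2 : ℝ) ^ (m + 1) ≤ 2 ^ (M + k₀) := by
      apply pow_le_pow_right₀ (by norm_num)
      omega
    linarith
  refine ⟨m - k₀, by omega, ?_⟩
  have e : m - k₀ + k₀ = m := by omega
  simp only [e]
  exact ⟨hθ, t, hm1, hm2, hclose⟩

/-- Almost no direction has a dense ray. -/
lemma ae_ray (y : HS) : ∀ᵐ θ : ℝ, ¬ Dense (ray θ y) := by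
  rw [MeasureTheory.ae_iff]
  have hsub : {θ : ℝ | ¬ ¬ Dense (ray θ y)}
      ⊆ ⋃ c : ℤ, {θ : ℝ | θ ∈ Set.Icc (c : ℝ) ((c : ℝ) + 1) ∧ Dense (ray θ y)} := by
    intro θ hθ
    rw [Set.mem_ofPred_eq, not_not] at hθ
    rw [Set.mem_iUnion]
    exact ⟨⌊θ⌋, ⟨Int.floor_le θ, (Int.lt_floor_add_one θ).le⟩, hθ⟩
  exact MeasureTheory.measure_mono_null hsub
    (MeasureTheory.measure_iUnion_null fun c => null_Icc y c)

lemma orbit_subset_ray (y : HS) (θ r : ℝ) (hr : 0 < r) :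
    Set.range (fun n : ℕ => (⇑(T ((r : ℂ) * Complex.exp (θ * Complex.I))))^[n] y) ⊆ ray θ y := by
  rintro v ⟨n, rfl⟩
  refine ⟨n * r, by positivity, ?_⟩
  change (⇑(T ((r : ℂ) * Complex.exp (θ * Complex.I))))^[n] y = _
  rw [T_iterate]
  congr 2
  push_cast
  ring

section Statement

variable {H : Type} [NormedAddCommGroup H] [NormedSpace ℂ H]

/-- The operators `exp (z A)`, `z ∈ ℂ`. -/
noncomputable def grp (A : H →L[ℂ] H) (z : ℂ) : H →L[ℂ] H := NormedSpace.exp (z • A)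

/-- `x` is a hypercyclic vector of `T`: its orbit `x, T x, T (T x), ...` is dense. -/
def HypVec (T : H →L[ℂ] H) (x : H) : Prop := Dense (Set.range fun n : ℕ => (⇑T)^[n] x)

/-- `T` is an operator group, holomorphic in the operator norm. -/
def IsHolGroup (T : ℂ → H →L[ℂ] H) : Prop :=
  T 0 = ContinuousLinearMap.id ℂ H ∧ (∀ z w, T (z + w) = (T z).comp (T w)) ∧ Differentiable ℂ T

/-- Every `T z`, `z ≠ 0`, is hypercyclic, with a residual set of hypercyclic vectors. -/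
def AllHyp (T : ℂ → H →L[ℂ] H) : Prop :=
  ∀ z, z ≠ 0 → (∃ x, HypVec (T z) x) ∧ {x | HypVec (T z) x} ∈ residual H

/-- The orbit of `y` under `T (t exp (i θ))`, `t ≥ 0`. -/
def rayOrbit (T : ℂ → H →L[ℂ] H) (θ : ℝ) (y : H) : Set H :=
  {v | ∃ t : ℝ, 0 ≤ t ∧ v = T ((t : ℂ) * Complex.exp (θ * Complex.I)) y}

/-- Every vector `y` fails in almost every direction `θ`. -/
def RayFail (T : ℂ → H →L[ℂ] H) : Prop :=
  ∀ y, ∀ᵐ θ : ℝ, ¬ Dense (rayOrbit T θ y) ∧
    ∀ r : ℝ, 0 < r → ¬ HypVec (T ((r : ℂ) * Complex.exp (θ * Complex.I))) y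

/-- The `T z`, `z ≠ 0`, have a common hypercyclic vector. -/
def Common (T : ℂ → H →L[ℂ] H) : Prop := ∃ y, ∀ z, z ≠ 0 → HypVec (T z) y

end Statement

/-- A holomorphic operator group `T z = exp (z A)` on a separable complex Hilbert space: every
`T z`, `z ≠ 0`, is hypercyclic, with a residual set of hypercyclic vectors, but for EVERY vector
`y` and almost every angle `θ` the ray `T (t exp (i θ)) y`, `t ≥ 0`, is not dense, and `y` is a
hypercyclic vector of `T (r exp (i θ))` for no `r > 0`; so there is no common hypercyclic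
vector. -/
theorem result :
    ∃ (H : Type) (_ : NormedAddCommGroup H) (_ : InnerProductSpace ℂ H) (_ : CompleteSpace H)
      (_ : TopologicalSpace.SeparableSpace H) (A : H →L[ℂ] H),
      IsHolGroup (grp A) ∧ AllHyp (grp A) ∧ RayFail (grp A) ∧ ¬ Common (grp A) := by
  refine ⟨HS, inferInstance, inferInstance, inferInstance, inferInstance, A,
    ⟨T_zero, T_add, ?_⟩, fun z hz => ⟨exists_hypercyclic z hz, residual_hypercyclic z hz⟩, ?_, ?_⟩
  · intro z
    exact (hasDerivAt_exp_smul_const (𝕂 := ℂ) A z).differentiableAt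
  · intro y
    filter_upwards [ae_ray y] with θ hθ
    exact ⟨hθ, fun r hr hd => hθ (Dense.mono (orbit_subset_ray y θ r hr) hd)⟩
  · rintro ⟨y, hy⟩
    exact no_common y hy

end Pool.Agent.Results.MP_2d5ed4_an.NoCommonRay
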